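import Mathlib
import Pool.Agent.Helper8.Verg.ChiMain

set_option autoImplicit false

/-!
The Lescure-Meyniel conjecture holds asymptotically for graphs of independence number at most two:
every such graph `G` of large chromatic number contains a weak immersion of the complete graph on
`(1 - o(1)) χ(G)` vertices.
-/

namespace Pool.Agent.Results.MP_911cfd_co.AlphaTwoAsymptotic

/-- `G` contains a weak immersion of the complete graph on `t` vertices: `t` distinct branch vertices
`f i`, and for every pair `i < j` a path from `f i` to `f j`, the paths of different pairs having no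
common edge.  (Word for word the conclusion of the frozen statement S10137 with `t` for `r`.) -/
def WeakImm {V : Type} (G : SimpleGraph V) (t : ℕ) : Prop :=
  ∃ f : Fin t ↪ V, ∃ p : ∀ i j : Fin t, G.Walk (f i) (f j),
    (∀ i j : Fin t, i < j → (p i j).IsPath) ∧
    ∀ i j k l : Fin t, i < j → k < l → (i ≠ k ∨ j ≠ l) →
      ∀ e ∈ (p i j).edges, e ∉ (p k l).edges

lemma three {V : Type} {G : SimpleGraph V}
    (h : ∀ s : Finset V, G.IsIndepSet (s : Set V) → s.card ≤ 2) (a b c : V) (hab : a ≠ b)
    (hbc : b ≠ c) (hac : a ≠ c) : G.Adj a b ∨ G.Adj b c ∨ G.Adj a c := by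
  classical
  by_contra hcon
  push Not at hcon
  obtain ⟨h1, h2, h3⟩ := hcon
  have h4 := h {a, b, c} ?_
  · rw [Finset.card_eq_three.2 ⟨a, b, c, hab, hac, hbc, rfl⟩] at h4
    omega
  · intro x hx y hy hxy
    simp only [Finset.coe_insert, Finset.coe_singleton, Set.mem_insert_iff,
      Set.mem_singleton_iff] at hx hy
    rcases hx with rfl | rfl | rfl <;> rcases hy with rfl | rfl | rfl <;>
      first
        | exact absurd rfl hxy
        | assumption
        | (rw [SimpleGraph.adj_comm]; assumption)

/-- **Asymptotic Lescure-Meyniel conjecture for independence number two.**  For every `ε > 0` there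
is an `N` such that every finite graph `G` without an independent set of three vertices whose
chromatic number `r` is at least `N` contains a weak immersion of the complete graph on `t` vertices
for every `t ≤ (1 - ε) r`. -/
theorem result :
    ∀ ε : ℝ, 0 < ε → ∃ N : ℕ, ∀ (V : Type) [Fintype V] (G : SimpleGraph V) (r : ℕ),
      G.chromaticNumber = (r : ℕ∞) → N ≤ r →
      (∀ s : Finset V, G.IsIndepSet (s : Set V) → s.card ≤ 2) →
      ∀ t : ℕ, (t : ℝ) ≤ (1 - ε) * r → WeakImm G t := by
  intro ε hε
  obtain ⟨N, hN⟩ := Pool.Agent.Helper8.Verg.asymptotic_chi ε hε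
  exact ⟨N, fun V _ G r hχ hr hα t ht => hN V G r hχ hr (three hα) t ht⟩

end Pool.Agent.Results.MP_911cfd_co.AlphaTwoAsymptotic
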