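import Mathlib
import Pool.Agent.Helper74.LM.Chrom

set_option autoImplicit false

/-!
Clique immersions from the minimum degree: every graph of minimum degree at least `5 t - 5` contains a
weak immersion of the complete graph on `t` vertices.
-/

namespace Pool.Agent.Results.MP_911cfd_co.MinDegreeFive

/-- `G` contains a weak immersion of the complete graph on `t` vertices: `t` distinct branch vertices
`f i`, and for every pair `i < j` a path from `f i` to `f j`, the paths of different pairs having no
common edge.  (Word for word the conclusion of the frozen statement S10137 with `t` for `r`.) -/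
def WeakImm {V : Type} (G : SimpleGraph V) (t : ℕ) : Prop :=
  ∃ f : Fin t ↪ V, ∃ p : ∀ i j : Fin t, G.Walk (f i) (f j),
    (∀ i j : Fin t, i < j → (p i j).IsPath) ∧
    ∀ i j k l : Fin t, i < j → k < l → (i ≠ k ∨ j ≠ l) →
      ∀ e ∈ (p i j).edges, e ∉ (p k l).edges

/-- Every nonempty finite graph all of whose vertices have degree at least `5 t - 5` contains a weak
immersion of the complete graph on `t` vertices. -/
theorem result :
    ∀ (V : Type) [Fintype V] [Nonempty V] (G : SimpleGraph V) [DecidableRel G.Adj] (t : ℕ),
      (∀ v : V, 5 * t ≤ G.degree v + 5) → WeakImm G t :=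
  fun _ _ _ G _ t h => Pool.Agent.Helper74.LM.weakImm_of_minDegree G t
    (fun x => ⟨G.neighborFinset x, by rw [SimpleGraph.card_neighborFinset_eq_degree]; exact h x,
      fun y hy => by simpa using hy⟩)

end Pool.Agent.Results.MP_911cfd_co.MinDegreeFive
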