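import Mathlib
import Pool.Agent.Helper74.LM.Chrom

set_option autoImplicit false

/-!
Towards the Lescure-Meyniel conjecture: every graph of chromatic number at least `3 t - 2` contains a
weak immersion of the complete graph on `t` vertices.
-/

namespace Pool.Agent.Results.MP_911cfd_co.ThirdOfChi

/-- `G` contains a weak immersion of the complete graph on `t` vertices: `t` distinct branch vertices
`f i`, and for every pair `i < j` a path from `f i` to `f j`, the paths of different pairs having no
common edge.  (Word for word the conclusion of the frozen statement S10137 with `t` for `r`.) -/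
def WeakImm {V : Type} (G : SimpleGraph V) (t : ℕ) : Prop :=
  ∃ f : Fin t ↪ V, ∃ p : ∀ i j : Fin t, G.Walk (f i) (f j),
    (∀ i j : Fin t, i < j → (p i j).IsPath) ∧
    ∀ i j k l : Fin t, i < j → k < l → (i ≠ k ∨ j ≠ l) →
      ∀ e ∈ (p i j).edges, e ∉ (p k l).edges

/-- Every finite graph `G` of chromatic number `r` contains a weak immersion of the complete graph on
`t` vertices for every `t` with `3 t - 2 ≤ r`. -/
theorem result :
    ∀ (V : Type) [Fintype V] (G : SimpleGraph V) (r : ℕ), G.chromaticNumber = (r : ℕ∞) →
      ∀ t : ℕ, 3 * t ≤ r + 2 → WeakImm G t :=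
  fun _ _ G r hr t ht => Pool.Agent.Helper74.LM.weakImm_of_chromaticNumber G r t hr ht

end Pool.Agent.Results.MP_911cfd_co.ThirdOfChi
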